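import Mathlib
import Pool.Agent.H233Z.ZmDefs
import Pool.Agent.H233Z.Heis

open scoped Manifold ContDiff

namespace Pool.Agent.Results.MP_3a9d0e_gt.AHeisenberg

open Pool.Agent.H233Z

/-- There is a connected three-dimensional real (analytic) Lie group `K`, Hausdorff and second
countable, with a subgroup `G` that satisfies `Z_m` and is not closed in `K`. -/
theorem result :
    ∃ (K : Type) (_ : Group K) (_ : TopologicalSpace K) (_ : T2Space K)
      (_ : SecondCountableTopology K) (_ : ConnectedSpace K)
      (_ : ChartedSpace (EuclideanSpace ℝ (Fin 3)) K) (_ : LieGroup (𝓡 3) ω K)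
      (G : Subgroup K), Zm G ∧ ¬ IsClosed (G : Set K) :=
  ⟨Heis, inferInstance, inferInstance, inferInstance, inferInstance, inferInstance,
    inferInstance, inferInstance, heis_main⟩

end Pool.Agent.Results.MP_3a9d0e_gt.AHeisenberg
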